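import Pool.Agent.V1132.SmallAut7

/-!
# Finite `p`-groups with very few automorphisms
-/

set_option autoImplicit false

namespace Pool.Agent.Results.MP_a94181_al.NoPower

open Pool.Agent.V1132.SmallAut

/-- **Theorem.** For every prime `p ≥ 5` and every real `a > 0` there is a finite `p`-group `G`
(in particular a finite nilpotent group) with `|Aut G| < φ(|G|) ^ a`. -/
theorem result (p : ℕ) (hpp : p.Prime) (hp : 5 ≤ p) (a : ℝ) (ha : 0 < a) :
    ∃ (G : Type) (_ : Group G), Finite G ∧ IsPGroup p G ∧ Group.IsNilpotent G ∧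
      (Nat.card (MulAut G) : ℝ) < ((Nat.card G).totient : ℝ) ^ a := by
  obtain ⟨G, _, hf, hG, h⟩ := main p hpp hp a ha
  have : Fact p.Prime := ⟨hpp⟩
  exact ⟨G, inferInstance, hf, hG, hG.isNilpotent, h⟩

end Pool.Agent.Results.MP_a94181_al.NoPower
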